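import Pool.Agent.H66.S2.Stmts

/-!
# T5b, module DCA: the dual Cauchy identity, and the Cauchy identity for an arbitrary sequence
-/

set_option autoImplicit false

namespace Pool.H66.S2

open Finset

/-- strictly decreasing functions on `Fin m` -/
theorem DCA_gap {m : ℕ} (f : Fin m → ℕ) (hf : StrictAnti f) :
    ∀ (d : ℕ) (i j : Fin m), (i : ℕ) + d = j → f j + d ≤ f i := by
  intro d
  induction d with
  | zero =>
    intro i j h
    have : i = j := by
      apply Fin.ext; omega
    rw [this]; omega
  | succ d ih =>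
    intro i j h
    have hi : (i : ℕ) + 1 < m := by have := j.2; omega
    have h1 := ih ⟨(i : ℕ) + 1, hi⟩ j (by simp; omega)
    have h2 : f ⟨(i : ℕ) + 1, hi⟩ < f i := by
      apply hf
      rw [Fin.lt_def]; simp
    omega

theorem DCA_gap' {m : ℕ} (f : Fin m → ℕ) (hf : StrictAnti f) (i : Fin m) :
    m - 1 - (i : ℕ) ≤ f i := by
  have hm : 0 < m := lt_of_le_of_lt (Nat.zero_le _) i.2
  have h := DCA_gap f hf (m - 1 - (i : ℕ)) i ⟨m - 1, by omega⟩ (by simp; omega)
  omega

/-- the shift -/
def dlt (m : ℕ) (j : Fin m) : ℕ := m - 1 - (j : ℕ)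

theorem DCA_strict {m : ℕ} (nu : Fin m → ℕ) (h : Antitone nu) :
    StrictAnti (fun j => nu j + dlt m j) := by
  intro i j hij
  have h1 := h hij.le
  rw [Fin.lt_def] at hij
  simp only [dlt]
  have := j.2
  omega

theorem DCA_perm_one {m : ℕ} (f g : Fin m → ℕ) (hf : StrictAnti f) (hg : StrictAnti g)
    (τ : Equiv.Perm (Fin m)) (h : f = g ∘ τ) : τ = 1 := by
  have hτ : StrictMono τ := by
    intro i j hij
    have h1 : f j < f i := hf hij
    rw [h] at h1
    exact (hg.lt_iff_gt).1 h1
  have h2 : (τ : Fin m → Fin m) = id := by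
    apply (StrictMono.range_inj hτ strictMono_id).1
    rw [Set.range_id]
    exact τ.surjective.range_eq
  ext i
  simp [h2]

/-- the partitions as a finite set -/
theorem DCA_par_finite (m k : ℕ) : (Par m k).Finite := by
  apply Set.Finite.subset (Finset.finite_toSet (Finset.piAntidiag (univ : Finset (Fin m)) k))
  intro nu hnu
  simp only [Finset.mem_coe, Finset.mem_piAntidiag]
  exact ⟨hnu.2, fun i _ => Finset.mem_univ i⟩

/-- The reordering of a sum over all injective functions. -/
theorem DCA_reorder {m : ℕ} (k : ℕ) (F : (Fin m → ℕ) → ℂ)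
    (hF : ∀ N : Fin m → ℕ, ¬ Function.Injective N → F N = 0) :
    ∑ N ∈ Finset.piAntidiag (univ : Finset (Fin m)) (k + ∑ j, dlt m j), F N =
      ∑ nu ∈ (DCA_par_finite m k).toFinset, ∑ σ : Equiv.Perm (Fin m),
        F ((fun j => nu j + dlt m j) ∘ σ) := by
  classical
  rw [← Finset.sum_product', ← Finset.sum_filter_of_ne
    (p := fun N : Fin m → ℕ => Function.Injective N) (fun N _ hN => by
      by_contra h; exact hN (hF N h))]
  symm
  apply Finset.sum_nbij (fun x => (fun j => x.1 j + dlt m j) ∘ x.2)
  · rintro ⟨nu, σ⟩ hx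
    simp only [Finset.mem_product, Set.Finite.mem_toFinset, Finset.mem_univ, and_true] at hx
    simp only [Finset.mem_filter, Finset.mem_piAntidiag]
    refine ⟨⟨?_, fun i _ => Finset.mem_univ i⟩, ?_⟩
    · rw [← hx.2, ← Finset.sum_add_distrib]
      exact Equiv.sum_comp σ (fun j => nu j + dlt m j)
    · exact (DCA_strict nu hx.1).injective.comp σ.injective
  · rintro ⟨nu, σ⟩ hx ⟨nu', σ'⟩ hx' h
    simp only [Finset.coe_product, Set.mem_prod, Finset.mem_coe, Set.Finite.mem_toFinset,
      Finset.mem_univ, and_true] at hx hx'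
    simp only at h
    have h1 : (fun j => nu j + dlt m j) = (fun j => nu' j + dlt m j) ∘ (σ' * σ⁻¹ : Equiv.Perm _) := by
      funext j
      have := congrFun h (σ⁻¹ j)
      simpa using this
    have h2 := DCA_perm_one _ _ (DCA_strict nu hx.1) (DCA_strict nu' hx'.1) _ h1
    rw [h2] at h1
    have h3 : σ' = σ := by
      rw [mul_inv_eq_one] at h2
      exact h2
    have h4 : nu = nu' := by
      funext j
      have := congrFun h1 j
      simp at this
      exact this
    rw [h3, h4]
  · intro N hN
    simp only [Finset.coe_filter, Set.mem_ofPred_eq, Finset.mem_piAntidiag] at hN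
    obtain ⟨⟨hN1, -⟩, hN2⟩ := hN
    set ρ : Equiv.Perm (Fin m) := Fin.revPerm.trans (Tuple.sort N) with hρ
    have hmono : StrictMono (N ∘ Tuple.sort N) :=
      (Tuple.monotone_sort N).strictMono_of_injective (hN2.comp (Tuple.sort N).injective)
    have hanti : StrictAnti (N ∘ ρ) := by
      intro i j hij
      have h5 : Fin.rev j < Fin.rev i := Fin.rev_lt_rev.2 hij
      have := hmono h5
      simpa [hρ] using this
    refine ⟨⟨fun j => (N ∘ ρ) j - dlt m j, ρ.symm⟩, ?_, ?_⟩
    · simp only [Finset.coe_product, Set.mem_prod, Finset.mem_coe, Set.Finite.mem_toFinset,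
        Finset.mem_univ, and_true]
      constructor
      · intro i j hij
        have h6 := DCA_gap (N ∘ ρ) hanti ((j : ℕ) - i) i j (by
          have := Fin.le_def.1 hij; omega)
        have h7 := DCA_gap' (N ∘ ρ) hanti j
        have := Fin.le_def.1 hij
        have := j.2
        simp only [dlt]
        omega
      · have h8 : ∑ j, ((N ∘ ρ) j - dlt m j) + ∑ j, dlt m j = k + ∑ j, dlt m j := by
          rw [← Finset.sum_add_distrib, ← hN1, ← Equiv.sum_comp ρ N]
          apply Finset.sum_congr rfl
          intro j _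
          have h7 := DCA_gap' (N ∘ ρ) hanti j
          simp only [dlt] at h7 ⊢
          simp only [Function.comp] at h7 ⊢
          omega
        exact Nat.add_right_cancel h8
    · funext j
      have h7 := DCA_gap' (N ∘ ρ) hanti (ρ.symm j)
      simp only [Function.comp, Equiv.apply_symm_apply] at h7 ⊢
      simp only [dlt]
      omega
  · intro x _
    rfl

/-- The alternant. -/
noncomputable def alt {m : ℕ} (c : Fin m → ℂ) (N : Fin m → ℕ) : ℂ :=
  (Matrix.of fun i j : Fin m => c i ^ N j).det

theorem DCA_alt_perm {m : ℕ} (c : Fin m → ℂ) (N : Fin m → ℕ) (σ : Equiv.Perm (Fin m)) :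
    alt c (N ∘ σ) = (Equiv.Perm.sign σ : ℂ) * alt c N := by
  unfold alt
  rw [← Matrix.det_permute']
  rfl

theorem DCA_alt_zero {m : ℕ} (c : Fin m → ℂ) (N : Fin m → ℕ) (h : ¬ Function.Injective N) :
    alt c N = 0 := by
  unfold alt
  simp only [Function.Injective, not_forall] at h
  obtain ⟨a, b, hab, hne⟩ := h
  apply Matrix.det_zero_of_column_eq hne
  intro i
  simp [hab]

theorem DCA_sz_sub {R : Type} [Zero R] (A : ℕ → R) (a b : ℕ) (h : b ≤ a) :
    sz A ((a : ℤ) - b) = A (a - b) := by
  unfold sz
  rw [if_pos (by omega)]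
  congr 1
  omega

theorem DCA_sz_neg {R : Type} [Zero R] (A : ℕ → R) (a b : ℕ) (h : a < b) :
    sz A ((a : ℤ) - b) = 0 := by
  unfold sz
  rw [if_neg (by omega)]

/-- The product of the alternant and the generating function. -/
theorem DCA_mul {m : ℕ} (A : ℕ → ℂ) (k : ℕ) (c : Fin m → ℂ) :
    alt c (dlt m) * ∑ n ∈ Finset.piAntidiag (univ : Finset (Fin m)) k, ∏ j, (A (n j) * c j ^ n j) =
      ∑ n ∈ Finset.piAntidiag (univ : Finset (Fin m)) k, (∏ j, A (n j)) *
        alt c (fun j => n j + dlt m j) := by
  classical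
  have h1 : ∀ N : Fin m → ℕ, alt c N = ∑ σ : Equiv.Perm (Fin m), (Equiv.Perm.sign σ : ℂ) *
      ∏ i, c (σ i) ^ N i := by
    intro N
    unfold alt
    rw [Matrix.det_apply']
    rfl
  have h2 : ∀ σ : Equiv.Perm (Fin m),
      (∑ n ∈ Finset.piAntidiag (univ : Finset (Fin m)) k, ∏ j, (A (n j) * c j ^ n j)) =
      ∑ n ∈ Finset.piAntidiag (univ : Finset (Fin m)) k, ∏ j, (A (n j) * c (σ j) ^ n j) := by
    intro σ
    apply Finset.sum_nbij' (fun n => n ∘ σ) (fun n => n ∘ σ.symm)
    · intro n hn
      simp only [Finset.mem_piAntidiag] at hn ⊢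
      refine ⟨?_, fun i _ => Finset.mem_univ i⟩
      rw [← hn.1]
      exact Equiv.sum_comp σ n
    · intro n hn
      simp only [Finset.mem_piAntidiag] at hn ⊢
      refine ⟨?_, fun i _ => Finset.mem_univ i⟩
      rw [← hn.1]
      exact Equiv.sum_comp σ.symm n
    · intro n _
      funext j
      simp
    · intro n _
      funext j
      simp
    · intro n _
      rw [← Equiv.prod_comp σ]
      rfl
  rw [h1, Finset.sum_mul]
  have h3 : ∀ σ : Equiv.Perm (Fin m), ((Equiv.Perm.sign σ : ℂ) * ∏ i, c (σ i) ^ dlt m i) *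
      (∑ n ∈ Finset.piAntidiag (univ : Finset (Fin m)) k, ∏ j, (A (n j) * c j ^ n j)) =
      ∑ n ∈ Finset.piAntidiag (univ : Finset (Fin m)) k, (∏ j, A (n j)) *
        ((Equiv.Perm.sign σ : ℂ) * ∏ i, c (σ i) ^ (n i + dlt m i)) := by
    intro σ
    rw [h2 σ, Finset.mul_sum]
    apply Finset.sum_congr rfl
    intro n _
    rw [Finset.prod_mul_distrib]
    simp only [pow_add]
    rw [Finset.prod_mul_distrib]
    ring
  rw [Finset.sum_congr rfl (fun σ _ => h3 σ), Finset.sum_comm]
  apply Finset.sum_congr rfl
  intro n _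
  rw [h1, Finset.mul_sum]

/-- The identity after multiplication by the alternant. -/
theorem DCA_core {m : ℕ} (A : ℕ → ℂ) (k : ℕ) (c : Fin m → ℂ) :
    alt c (dlt m) * ∑ n ∈ Finset.piAntidiag (univ : Finset (Fin m)) k, ∏ j, (A (n j) * c j ^ n j) =
      ∑ nu ∈ (DCA_par_finite m k).toFinset, JT A nu * alt c (fun j => nu j + dlt m j) := by
  classical
  rw [DCA_mul]
  set F : (Fin m → ℕ) → ℂ := fun N => (∏ j, sz A ((N j : ℤ) - dlt m j)) * alt c N with hFdef
  have h1 : ∑ n ∈ Finset.piAntidiag (univ : Finset (Fin m)) k, (∏ j, A (n j)) *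
        alt c (fun j => n j + dlt m j) =
      ∑ N ∈ Finset.piAntidiag (univ : Finset (Fin m)) (k + ∑ j, dlt m j), F N := by
    rw [← Finset.sum_filter_of_ne (p := fun N : Fin m → ℕ => ∀ j, dlt m j ≤ N j)
      (s := Finset.piAntidiag (univ : Finset (Fin m)) (k + ∑ j, dlt m j)) (f := F)]
    · apply Finset.sum_nbij' (fun n j => n j + dlt m j) (fun N j => N j - dlt m j)
      · intro n hn
        simp only [Finset.mem_filter, Finset.mem_piAntidiag] at hn ⊢
        refine ⟨⟨?_, fun i _ => Finset.mem_univ i⟩, fun j => Nat.le_add_left _ _⟩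
        rw [← hn.1, Finset.sum_add_distrib]
      · intro N hN
        simp only [Finset.mem_filter, Finset.mem_piAntidiag] at hN ⊢
        refine ⟨?_, fun i _ => Finset.mem_univ i⟩
        have h8 : ∑ j, (N j - dlt m j) + ∑ j, dlt m j = k + ∑ j, dlt m j := by
          rw [← Finset.sum_add_distrib, ← hN.1.1]
          apply Finset.sum_congr rfl
          intro j _
          have := hN.2 j
          omega
        exact Nat.add_right_cancel h8
      · intro n _
        funext j
        simp
      · intro N hN
        simp only [Finset.mem_filter, Finset.mem_piAntidiag] at hN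
        funext j
        have := hN.2 j
        simp only
        omega
      · intro n _
        simp only [hFdef]
        congr 1
        apply Finset.prod_congr rfl
        intro j _
        rw [DCA_sz_sub A _ _ (Nat.le_add_left _ _)]
        congr 1
        omega
    · intro N _ hN
      by_contra h
      push Not at h
      obtain ⟨j, hj⟩ := h
      apply hN
      simp only [hFdef]
      rw [Finset.prod_eq_zero (Finset.mem_univ j) (DCA_sz_neg A _ _ hj), zero_mul]
  rw [h1, DCA_reorder k F]
  · apply Finset.sum_congr rfl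
    intro nu _
    have h2 : ∀ σ : Equiv.Perm (Fin m), F ((fun j => nu j + dlt m j) ∘ σ) =
        ((Equiv.Perm.sign σ : ℂ) * ∏ i, sz A ((nu (σ i) : ℤ) - (σ i : ℕ) + (i : ℕ))) *
          alt c (fun j => nu j + dlt m j) := by
      intro σ
      simp only [hFdef]
      rw [DCA_alt_perm]
      have h3 : ∏ j, sz A ((((fun j => nu j + dlt m j) ∘ σ) j : ℤ) - dlt m j) =
          ∏ i, sz A ((nu (σ i) : ℤ) - (σ i : ℕ) + (i : ℕ)) := by
        apply Finset.prod_congr rfl
        intro j _
        congr 1
        have h4 := (σ j).2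
        have h5 := j.2
        simp only [Function.comp, dlt]
        omega
      rw [h3]
      ring
    rw [Finset.sum_congr rfl (fun σ _ => h2 σ), ← Finset.sum_mul]
    congr 1
    unfold JT
    rw [Matrix.det_apply']
    rfl
  · intro N hN
    simp only [hFdef]
    rw [DCA_alt_zero c N hN, mul_zero]

theorem DCA_alt_ne {m : ℕ} (c : Fin m → ℂ) (hc : Function.Injective c) : alt c (dlt m) ≠ 0 := by
  have h1 : alt c (dlt m) = alt c ((fun j : Fin m => (j : ℕ)) ∘ (Fin.revPerm : Equiv.Perm (Fin m))) := by
    congr 1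
    funext j
    simp only [dlt, Function.comp, Fin.revPerm_apply, Fin.val_rev]
    omega
  rw [h1, DCA_alt_perm]
  apply mul_ne_zero
  · rcases Int.units_eq_one_or (Equiv.Perm.sign (Fin.revPerm : Equiv.Perm (Fin m))) with h | h
    · rw [h]; simp
    · rw [h]; simp
  · have := (Matrix.det_vandermonde_ne_zero_iff (v := c)).2 hc
    exact this

theorem DCA_hs_cont {m : ℕ} (k : ℕ) :
    Continuous fun c : Fin m → ℂ => hs k (Finset.univ.val.map c) := by
  have h1 : ∀ c : Fin m → ℂ, hs k (Finset.univ.val.map c) =
      ∑ l ∈ Finset.finsuppAntidiag (univ : Finset (Fin m)) k, ∏ i, c i ^ l i := by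
    intro c
    unfold hs
    rw [Multiset.map_map]
    change PowerSeries.coeff k (∏ j, (PowerSeries.mk fun n => c j ^ n : PowerSeries ℂ)) = _
    rw [PowerSeries.coeff_prod]
    simp
  simp only [h1]
  fun_prop

theorem DCA_schur_cont {m : ℕ} (nu : Fin m → ℕ) :
    Continuous fun c : Fin m → ℂ => schur nu (Finset.univ.val.map c) := by
  unfold schur JT
  apply Continuous.matrix_det
  apply continuous_matrix
  intro i j
  simp only [Matrix.of_apply, sz]
  split_ifs
  · exact DCA_hs_cont _
  · exact continuous_const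

/-- The Cauchy identity for an arbitrary sequence. -/
theorem DCA_gen (hJTB : S_JTB) {m : ℕ} (A : ℕ → ℂ) (k : ℕ) (c : Fin m → ℂ) :
    ∑ n ∈ Finset.piAntidiag (univ : Finset (Fin m)) k, ∏ j, (A (n j) * c j ^ n j) =
      ∑ᶠ nu ∈ Par m k, JT A nu * schur nu (Finset.univ.val.map c) := by
  classical
  rw [finsum_mem_eq_finite_toFinset_sum _ (DCA_par_finite m k)]
  -- the injective case
  have h1 : ∀ c : Fin m → ℂ, Function.Injective c →
      ∑ n ∈ Finset.piAntidiag (univ : Finset (Fin m)) k, ∏ j, (A (n j) * c j ^ n j) =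
      ∑ nu ∈ (DCA_par_finite m k).toFinset, JT A nu * schur nu (Finset.univ.val.map c) := by
    intro c hc
    apply mul_left_cancel₀ (DCA_alt_ne c hc)
    rw [DCA_core, Finset.mul_sum]
    apply Finset.sum_congr rfl
    intro nu _
    have h2 := hJTB m c nu
    have h3 : alt c (fun j => nu j + dlt m j) = schur nu (Finset.univ.val.map c) * alt c (dlt m) :=
      h2
    rw [h3]
    ring
  -- the general case
  set L : ℂ → ℂ := fun t => ∑ n ∈ Finset.piAntidiag (univ : Finset (Fin m)) k,
    ∏ j, (A (n j) * (c j + t * (j : ℕ)) ^ n j) with hL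
  set R : ℂ → ℂ := fun t => ∑ nu ∈ (DCA_par_finite m k).toFinset,
    JT A nu * schur nu (Finset.univ.val.map fun j => c j + t * (j : ℕ)) with hR
  have hLc : Continuous L := by
    rw [hL]; fun_prop
  have hRc : Continuous R := by
    rw [hR]
    apply continuous_finsetSum
    intro nu _
    apply Continuous.mul continuous_const
    exact (DCA_schur_cont nu).comp (g := fun c : Fin m → ℂ => schur nu (Finset.univ.val.map c))
      (f := fun (t : ℂ) (j : Fin m) => c j + t * (j : ℕ)) (by fun_prop)
  have hdense : Dense {t : ℂ | Function.Injective fun j : Fin m => c j + t * (j : ℕ)} := by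
    have hfin : (⋃ (i : Fin m) (j : Fin m), {t : ℂ | i ≠ j ∧ c i + t * (i : ℕ) = c j + t * (j : ℕ)}).Finite := by
      apply Set.finite_iUnion
      intro i
      apply Set.finite_iUnion
      intro j
      by_cases hij : i = j
      · simp [hij]
      · apply Set.Finite.subset (Set.finite_singleton ((c j - c i) / ((i : ℕ) - (j : ℕ))))
        intro t ht
        simp only [Set.mem_ofPred_eq] at ht
        simp only [Set.mem_singleton_iff]
        have hne : ((i : ℕ) : ℂ) - ((j : ℕ) : ℂ) ≠ 0 := by
          intro h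
          apply hij
          apply Fin.ext
          have : ((i : ℕ) : ℂ) = ((j : ℕ) : ℂ) := sub_eq_zero.1 h
          exact_mod_cast this
        rw [eq_div_iff hne]
        linear_combination ht.2
    have h5 := hfin.countable.dense_compl ℂ
    apply h5.mono
    intro t ht i j hij
    by_contra hne
    apply ht
    simp only [Set.mem_iUnion]
    exact ⟨i, j, hne, hij⟩
  have h6 : L = R := by
    apply Continuous.ext_on hdense hLc hRc
    intro t ht
    exact h1 _ ht
  have h7 := congrFun h6 0
  simpa [hL, hR] using h7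

/-! ## Generating functions of elementary symmetric functions -/

/-- The generating function. -/
noncomputable def EE (X : Multiset ℂ) : PowerSeries ℂ :=
  (X.map fun a => (1 + PowerSeries.C a * PowerSeries.X : PowerSeries ℂ)).prod

theorem EE_coeff (X : Multiset ℂ) : ∀ k, PowerSeries.coeff k (EE X) = X.esymm k := by
  induction X using Multiset.induction_on with
  | empty =>
    intro k
    cases k with
    | zero => simp [EE, Multiset.esymm]
    | succ k => simp [EE, Multiset.esymm, PowerSeries.coeff_one, Multiset.powersetCard_zero_right]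
  | cons a X ih =>
    intro k
    have h : EE (a ::ₘ X) = EE X + PowerSeries.C a * (EE X * PowerSeries.X) := by
      simp only [EE, Multiset.map_cons, Multiset.prod_cons]
      ring
    cases k with
    | zero =>
      rw [h]
      simp only [map_add, PowerSeries.coeff_C_mul, ih]
      simp [Multiset.esymm]
    | succ k =>
      rw [h]
      simp only [map_add, PowerSeries.coeff_C_mul, PowerSeries.coeff_succ_mul_X, ih]
      simp only [Multiset.esymm, Multiset.powersetCard_cons, Multiset.map_add, Multiset.sum_add,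
        Multiset.map_map]
      congr 1
      rw [← Multiset.sum_map_mul_left]
      congr 1
      apply Multiset.map_congr rfl
      intro s _
      simp

theorem EE_bind {ι : Type} (s : Multiset ι) (f : ι → Multiset ℂ) :
    EE (s.bind f) = (s.map fun i => EE (f i)).prod := by
  simp only [EE, Multiset.map_bind, Multiset.prod_bind]

theorem esymm_scale (c : ℂ) (k : ℕ) (X : Multiset ℂ) :
    (X.map fun a => a * c).esymm k = X.esymm k * c ^ k := by
  simp only [Multiset.esymm, Multiset.powersetCard_map, Multiset.map_map]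
  rw [← Multiset.sum_map_mul_right]
  congr 1
  apply Multiset.map_congr rfl
  intro s hs
  rw [Multiset.mem_powersetCard] at hs
  simp only [Function.comp]
  rw [Multiset.prod_map_mul]
  simp [hs.2]

theorem s_DCA (_hHSB : S_HSB) (hJTB : S_JTB) : S_DCA := by
  classical
  intro k m X c
  rw [← DCA_gen hJTB]
  have h1 : (X.bind fun a => Finset.univ.val.map fun j => a * c j) =
      (Finset.univ : Finset (Fin m)).val.bind fun j => X.map fun a => a * c j := by
    rw [Multiset.bind_map_comm]
  rw [h1, ← EE_coeff, EE_bind]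
  change PowerSeries.coeff k (∏ j, EE (X.map fun a => a * c j)) = _
  rw [PowerSeries.coeff_prod]
  apply Finset.sum_nbij' (fun l : Fin m →₀ ℕ => (l : Fin m → ℕ))
    (fun n : Fin m → ℕ => (Finsupp.equivFunOnFinite.symm n : Fin m →₀ ℕ))
  · intro l hl
    simp only [Finset.mem_finsuppAntidiag] at hl
    simp only [Finset.mem_piAntidiag]
    exact ⟨hl.1, fun i _ => Finset.mem_univ i⟩
  · intro n hn
    simp only [Finset.mem_piAntidiag] at hn
    simp only [Finset.mem_finsuppAntidiag]
    exact ⟨hn.1, Finset.subset_univ _⟩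
  · intro l _
    simp
  · intro n _
    simp
  · intro l _
    apply Finset.prod_congr rfl
    intro j _
    rw [EE_coeff, esymm_scale]

end Pool.H66.S2
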